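import Pool.Agent.UL7.Stmts

/-!
# Row SGC of squad UL7: the sum with a segment
-/

set_option autoImplicit false

namespace Pool.Agent.UL7.H37

open MeasureTheory Set Pool.Agent.UL3 Pool.Agent.UL4 Pool.Agent.UL5 Pool.Agent.UL7

theorem sgm_eq (X : Set (ℝ × ℝ)) (v : ℝ × ℝ) :
    sgm X v = (fun p : (ℝ × ℝ) × ℝ => p.1 + p.2 • v) '' (X ×ˢ Icc (-1 : ℝ) 1) := by
  ext p
  constructor
  · rintro ⟨x, hx, t, ht, rfl⟩
    exact ⟨(x, t), ⟨hx, abs_le.1 ht⟩, rfl⟩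
  · rintro ⟨⟨x, t⟩, ⟨hx, ht⟩, rfl⟩
    exact ⟨x, hx, t, abs_le.2 ht, rfl⟩

theorem sgm_cpt {X : Set (ℝ × ℝ)} (v : ℝ × ℝ) (h : IsCompact X) : IsCompact (sgm X v) := by
  rw [sgm_eq]
  exact (h.prod isCompact_Icc).image
    (continuous_fst.add (continuous_snd.smul continuous_const))

theorem sgm_cvx {X : Set (ℝ × ℝ)} (v : ℝ × ℝ) (h : Convex ℝ X) : Convex ℝ (sgm X v) := by
  rintro _ ⟨x, hx, s, hs, rfl⟩ _ ⟨y, hy, t, ht, rfl⟩ a b ha hb hab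
  refine ⟨a • x + b • y, h hx hy ha hb hab, a * s + b * t, ?_, ?_⟩
  · rw [abs_le] at hs ht ⊢
    constructor
    · nlinarith
    · nlinarith
  · rw [smul_add, smul_add, add_smul, mul_smul, mul_smul]
    abel

theorem sub_sgm (X : Set (ℝ × ℝ)) (v : ℝ × ℝ) : X ⊆ sgm X v := by
  intro x hx
  refine ⟨x, hx, 0, by simp, by simp⟩

theorem sgc : SgcStmt := by
  intro X v
  refine ⟨sgm_cpt v, sgm_cvx v, sub_sgm X v, fun h => ⟨sgm_cpt v h.cpt, sgm_cvx v h.cvx, ?_⟩⟩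
  exact h.int.mono (interior_mono (sub_sgm X v))

end Pool.Agent.UL7.H37
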